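import Pool.Agent.H17.FR.Targets
import Pool.Agent.H64.SC.Api

/-!
Module CEN (MP_f2954d_ag, block B7, helper17)
-/

namespace Pool.Agent.H27.FR

open SC _root_.FR

section

variable {k k' K L : Type} [Field k] [Field k'] [Field K] [Field L] [Algebra k K]
  [Algebra k' L] [Algebra K L] [Algebra k k'] [Algebra k L] [IsScalarTower k K L]
  [IsScalarTower k k' L]

/-- the elements of order at least `m` -/
def VV (P : DV k' L) (m : ℤ) : Submodule k K where
  carrier := {x | x ≠ 0 → m ≤ P.ord (algebraMap K L x)}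
  zero_mem' := fun h => absurd rfl h
  add_mem' := by
    intro a b ha hb hab
    rw [map_add]
    apply P.ord_add_ge
    · intro h
      exact ha (fun h' => h (by rw [h', map_zero]))
    · intro h
      exact hb (fun h' => h (by rw [h', map_zero]))
    · rw [← map_add]
      exact (map_ne_zero _).mpr hab
  smul_mem' := by
    intro c a ha hca
    have hc : c ≠ 0 := by rintro rfl; exact hca (zero_smul _ _)
    have ha0 : a ≠ 0 := by rintro rfl; exact hca (smul_zero _)
    have h1 : algebraMap K L (c • a) = algebraMap k' L (algebraMap k k' c) * algebraMap K L a := by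
      rw [Algebra.smul_def, map_mul, ← IsScalarTower.algebraMap_apply k K L,
        ← IsScalarTower.algebraMap_apply k k' L]
    rw [h1, P.ord_mul, P.ord_base, zero_add]
    · exact ha ha0
    · rw [map_ne_zero, map_ne_zero]; exact hc
    · rw [map_ne_zero]; exact ha0

lemma mem_VV (P : DV k' L) (m : ℤ) (x : K) :
    x ∈ (VV (k := k) P m : Submodule k K) ↔ (x ≠ 0 → m ≤ P.ord (algebraMap K L x)) := Iff.rfl

lemma VV_mul (P : DV k' L) (a b : ℤ) :
    (VV P a : Submodule k K) * VV P b ≤ VV P (a + b) := by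
  rw [Submodule.mul_le]
  intro x hx y hy hxy
  have hx0 : x ≠ 0 := left_ne_zero_of_mul hxy
  have hy0 : y ≠ 0 := right_ne_zero_of_mul hxy
  rw [map_mul, P.ord_mul _ _ ((map_ne_zero _).mpr hx0) ((map_ne_zero _).mpr hy0)]
  exact add_le_add (hx hx0) (hy hy0)

lemma VV_pow (P : DV k' L) (m : ℤ) (W : Submodule k K) (hW : W ≤ VV P m) (n : ℕ) :
    W ^ n ≤ VV P (n * m) := by
  induction n with
  | zero =>
    rw [pow_zero, Submodule.one_le]
    intro _
    rw [map_one, P.ord_one]
    simp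
  | succ n ih =>
    rw [pow_succ]
    refine (mul_le_mul' ih hW).trans ((VV_mul P _ _).trans (le_of_eq ?_))
    congr 1
    push_cast
    ring

end

/-- CEN -/
theorem cen : T_CEN := by
  intro k k' K L _ _ _ _ _ _ _ _ _ _ _ W _ w n₀ hw hpow P
  -- the order is bounded below on `W`
  obtain ⟨m, hm⟩ : ∃ m : ℤ, W ≤ (VV P m : Submodule k K) := by
    obtain ⟨s, hs⟩ := (Module.Finite.iff_fg.mp (inferInstance : Module.Finite k W))
    have h1 : ∀ t : Finset K, ∃ m : ℤ, ∀ x ∈ t, x ∈ (VV P m : Submodule k K) := by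
      intro t
      classical
      induction t using Finset.induction_on with
      | empty => exact ⟨0, fun x hx => absurd hx (Finset.notMem_empty x)⟩
      | insert a t _ ih =>
        obtain ⟨m, hm⟩ := ih
        refine ⟨min m (P.ord (algebraMap K L a)), fun x hx => ?_⟩
        rcases Finset.mem_insert.mp hx with rfl | hx
        · intro _; exact min_le_right _ _
        · intro h0; exact (min_le_left _ _).trans (hm x hx h0)
    obtain ⟨m, hm⟩ := h1 s
    refine ⟨m, ?_⟩
    rw [← hs, Submodule.span_le]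
    exact hm
  -- the minimum is attained
  obtain ⟨u0, hu0W, hu00, hmin⟩ : ∃ u0 ∈ W, u0 ≠ 0 ∧ ∀ u ∈ W, u ≠ 0 →
      P.ord (algebraMap K L u0) ≤ P.ord (algebraMap K L u) := by
    have hex : ∃ z : ℤ, ∃ u ∈ W, u ≠ 0 ∧ P.ord (algebraMap K L u) = z :=
      ⟨_, w 0, (hw 0).2, (hw 0).1, rfl⟩
    obtain ⟨z, ⟨u0, h1, h2, h3⟩, h4⟩ := Int.exists_least_of_bdd (P := fun z => ∃ u ∈ W, u ≠ 0 ∧
      P.ord (algebraMap K L u) = z) ⟨m, by
        rintro z ⟨u, h1, h2, rfl⟩
        exact hm h1 h2⟩ hex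
    refine ⟨u0, h1, h2, fun u hu hu0 => ?_⟩
    rw [h3]
    exact h4 _ ⟨u, hu, hu0, rfl⟩
  -- the minimum over the `w i`
  obtain ⟨i, hi⟩ : ∃ i, ∀ j, P.ord (algebraMap K L (w i)) ≤ P.ord (algebraMap K L (w j)) :=
    Finite.exists_min (fun i => P.ord (algebraMap K L (w i)))
  refine ⟨i, fun u hu hu0 => le_trans ?_ (hmin u hu hu0)⟩
  have hW : W ≤ (VV P (P.ord (algebraMap K L u0)) : Submodule k K) := fun u hu hu0 => hmin u hu hu0
  have h1 : Submodule.span k (Set.range w) ≤ (VV P (P.ord (algebraMap K L (w i))) : Submodule k K) := by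
    rw [Submodule.span_le]
    rintro _ ⟨j, rfl⟩ _
    exact hi j
  have h2 : u0 ^ (n₀ + 1) ∈ W ^ (n₀ + 1) := Submodule.pow_mem_pow W hu0W (n₀ + 1)
  have h3 := VV_mul P _ _ (mul_le_mul' h1 (VV_pow P _ W hW n₀) (hpow h2))
  have h4 := h3 (pow_ne_zero _ hu00)
  rw [map_pow, P.ord_pow] at h4
  push_cast at h4
  linarith

end Pool.Agent.H27.FR
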